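import Mathlib

/-!
# Quotients of products of the polynomials `1 - X ^ n`
-/

set_option autoImplicit false
set_option linter.all false

open Polynomial Finset

namespace Pool.Agent.X261.SS

section cyc

variable {F : Type} [Field F]

theorem split_n {L n : ℕ} (hL : 0 < L) (h : n ∣ L) :
    (X ^ n - 1 : F[X]) = ∏ m ∈ L.divisors, (if m ∣ n then cyclotomic m F else 1) := by
  classical
  have hn : 0 < n := Nat.pos_of_dvd_of_pos h hL
  rw [← prod_cyclotomic_eq_X_pow_sub_one hn, ← Finset.prod_filter]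
  congr 1
  ext m
  rw [Finset.mem_filter, Nat.mem_divisors, Nat.mem_divisors]
  constructor
  · rintro ⟨h1, h2⟩
    exact ⟨⟨h1.trans h, hL.ne'⟩, h1⟩
  · rintro ⟨_, h1⟩
    exact ⟨h1, hn.ne'⟩

theorem prod_split {ι : Type} (A : Finset ι) (d : ι → ℕ) {L : ℕ} (hL : 0 < L)
    (h : ∀ i ∈ A, d i ∣ L) :
    ∏ i ∈ A, (X ^ d i - 1 : F[X]) =
      ∏ m ∈ L.divisors, cyclotomic m F ^ (A.filter fun i => m ∣ d i).card := by
  classical
  rw [Finset.prod_congr rfl fun i hi => split_n hL (h i hi), Finset.prod_comm]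
  refine Finset.prod_congr rfl fun m _ => ?_
  rw [Finset.prod_ite, Finset.prod_const, Finset.prod_const_one, mul_one]

theorem prod_neg' {ι : Type} (A : Finset ι) (d : ι → ℕ) :
    ∏ i ∈ A, (1 - X ^ d i : F[X]) = (-1) ^ A.card * ∏ i ∈ A, (X ^ d i - 1 : F[X]) := by
  rw [← Finset.prod_const, ← Finset.prod_mul_distrib]
  refine Finset.prod_congr rfl fun i _ => ?_
  ring

/-- the quotient -/
theorem quotient {ℓ : ℕ} [hℓ : Fact ℓ.Prime] {ι κ : Type} (A : Finset ι) (B : Finset κ)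
    (a : ι → ℕ) (b : κ → ℕ) (ha : ∀ i ∈ A, ¬ ℓ ∣ a i) (ha0 : ∀ i ∈ A, 0 < a i)
    (hb0 : ∀ i ∈ B, 0 < b i)
    (h1 : ∀ m, 0 < m → (B.filter fun i => m ∣ b i).card ≤ (A.filter fun i => m ∣ a i).card)
    {e : ℕ} (h2 : ∀ m, 0 < m → (A.filter fun i => m ∣ a i).card ≤
      e + (B.filter fun i => m ∣ b i).card) :
    ∃ H S : (ZMod ℓ)[X], Squarefree S ∧ H ∣ S ^ e ∧
      H * ∏ i ∈ B, (1 - X ^ b i) = ∏ i ∈ A, (1 - X ^ a i) := by
  classical
  obtain ⟨L, hLdef⟩ : ∃ L, L = ∏ i ∈ A, a i := ⟨_, rfl⟩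
  have hL : 0 < L := by
    rw [hLdef]
    exact Finset.prod_pos ha0
  have hLℓ : ¬ ℓ ∣ L := by
    rw [hLdef, Prime.dvd_finsetProd_iff hℓ.out.prime]
    rintro ⟨i, hi, hd⟩
    exact ha i hi hd
  have hA : ∀ i ∈ A, a i ∣ L := fun i hi => by
    rw [hLdef]
    exact Finset.dvd_prod_of_mem a hi
  have hB : ∀ i ∈ B, b i ∣ L := by
    intro i hi
    have h3 := h1 (b i) (hb0 i hi)
    have h4 : 0 < (B.filter fun j => b i ∣ b j).card :=
      Finset.card_pos.2 ⟨i, Finset.mem_filter.2 ⟨hi, dvd_rfl⟩⟩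
    obtain ⟨j, hj⟩ := Finset.card_pos.1 (h4.trans_le h3)
    obtain ⟨hjA, hjd⟩ := Finset.mem_filter.1 hj
    exact hjd.trans (hA j hjA)
  set c : ℕ → ℕ := fun m => (A.filter fun i => m ∣ a i).card - (B.filter fun i => m ∣ b i).card
    with hc
  set H0 : (ZMod ℓ)[X] := ∏ m ∈ L.divisors, cyclotomic m (ZMod ℓ) ^ c m with hH0
  have hS : Squarefree (X ^ L - 1 : (ZMod ℓ)[X]) := by
    apply Separable.squarefree
    rw [X_pow_sub_one_separable_iff]
    rw [Ne, ZMod.natCast_eq_zero_iff]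
    exact hLℓ
  have hH0S : H0 ∣ (X ^ L - 1) ^ e := by
    rw [← prod_cyclotomic_eq_X_pow_sub_one hL, ← Finset.prod_pow]
    apply Finset.prod_dvd_prod_of_dvd
    intro m hm
    apply pow_dvd_pow
    have := h2 m (Nat.pos_of_mem_divisors hm)
    show (A.filter fun i => m ∣ a i).card - (B.filter fun i => m ∣ b i).card ≤ e
    omega
  have hmul : H0 * ∏ i ∈ B, (X ^ b i - 1 : (ZMod ℓ)[X]) = ∏ i ∈ A, (X ^ a i - 1) := by
    rw [prod_split A a hL hA, prod_split B b hL hB, hH0, ← Finset.prod_mul_distrib]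
    refine Finset.prod_congr rfl fun m hm => ?_
    rw [← pow_add]
    congr 1
    have := h1 m (Nat.pos_of_mem_divisors hm)
    show (A.filter fun i => m ∣ a i).card - (B.filter fun i => m ∣ b i).card + _ = _
    omega
  refine ⟨(-1) ^ (A.card + B.card) * H0, X ^ L - 1, hS, ?_, ?_⟩
  · refine dvd_trans ?_ hH0S
    have hu : IsUnit ((-1 : (ZMod ℓ)[X]) ^ (A.card + B.card)) := (isUnit_one.neg).pow _
    exact (hu.mul_left_dvd).2 dvd_rfl
  · rw [prod_neg', prod_neg', ← hmul, pow_add]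
    have h5 : ((-1 : (ZMod ℓ)[X]) ^ B.card) * (-1) ^ B.card = 1 := by
      rw [← pow_add, ← two_mul, pow_mul, neg_one_sq, one_pow]
    calc (-1) ^ A.card * (-1) ^ B.card * H0 * ((-1) ^ B.card * ∏ i ∈ B, (X ^ b i - 1))
        = ((-1) ^ B.card * (-1) ^ B.card) * ((-1) ^ A.card * (H0 * ∏ i ∈ B, (X ^ b i - 1))) := by
          ring
      _ = _ := by rw [h5, one_mul]

theorem natDegree_fac {n : ℕ} (hn : 0 < n) : (1 - X ^ n : F[X]).natDegree = n := by
  rw [← neg_sub, natDegree_neg, ← C_1, natDegree_X_pow_sub_C]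

theorem natDegree_prod' {ι : Type} (A : Finset ι) (d : ι → ℕ) (h : ∀ i ∈ A, 0 < d i) :
    (∏ i ∈ A, (1 - X ^ d i : F[X])).natDegree = ∑ i ∈ A, d i := by
  rw [natDegree_prod]
  · exact Finset.sum_congr rfl fun i hi => natDegree_fac (h i hi)
  · intro i hi h0
    have h1 := natDegree_fac (F := F) (h i hi)
    rw [h0, natDegree_zero] at h1
    have := h i hi
    omega

theorem natDegree_quot {ι κ : Type} {A : Finset ι} {B : Finset κ} {a : ι → ℕ} {b : κ → ℕ}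
    (ha : ∀ i ∈ A, 0 < a i) (hb : ∀ i ∈ B, 0 < b i) {H : F[X]}
    (h : H * ∏ i ∈ B, (1 - X ^ b i) = ∏ i ∈ A, (1 - X ^ a i)) :
    H.natDegree + ∑ i ∈ B, b i = ∑ i ∈ A, a i := by
  have h1 := natDegree_prod' (F := F) A a ha
  have h2 := natDegree_prod' (F := F) B b hb
  have hne : ∀ {ι : Type} (A : Finset ι) (d : ι → ℕ), (∀ i ∈ A, 0 < d i) →
      ∏ i ∈ A, (1 - X ^ d i : F[X]) ≠ 0 := by
    intro ι A d hd
    rw [Finset.prod_ne_zero_iff]
    intro i hi h0
    have h1 := natDegree_fac (F := F) (hd i hi)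
    rw [h0, natDegree_zero] at h1
    have := hd i hi
    omega
  have hH : H ≠ 0 := by
    rintro rfl
    rw [zero_mul] at h
    exact hne A a ha h.symm
  rw [← h1, ← h, natDegree_mul hH (hne B b hb), h2]

end cyc

end Pool.Agent.X261.SS
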