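import Pool.Agent.X261.SS.Ep
import Pool.Agent.X261.SS.Cyc
import Pool.Agent.X261.TD.Cnt

/-!
# The multiplicities of the eigenvalues of Frobenius
-/

set_option autoImplicit false
set_option linter.all false

open Module NumberField Polynomial

namespace Pool.Agent.X261.SS

open Pool.Agent.W313.Hyp Pool.Agent.W343.BSD
open Pool.Agent.TH943.HJ (RF finRF primes mem_primes sum_primes)
open Pool.Agent.TH639.SE (red)
open Pool.Agent.H313.GE (red_mE BlocksLE blocks_of_count count_mod)
open Pool.Agent.H313.GE.Pts (IsDet)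

section conds

variable {k : Type} [Field k]

/-- The degrees of the prime factors of `D(f(x))` are prime to `ℓ`. -/
def DegreesPrimeTo (ℓ : ℕ) (f D : k[X]) : Prop := ∀ R ∈ primes (D.comp f), ¬ ℓ ∣ R.natDegree

open Classical in
/-- For all `m`, the number of the prime factors of `D(f(x))` of degrees divisible by `m` exceeds that of
the prime factors of `D` of degrees divisible by `m` by `e` at most. -/
def ExcessLE (e : ℕ) (f D : k[X]) : Prop :=
  ∀ m : ℕ, 0 < m → ((primes (D.comp f)).filter fun R => m ∣ R.natDegree).card ≤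
    e + ((primes D).filter fun P => m ∣ P.natDegree).card

theorem comp_ne' {f D : k[X]} (hf : 0 < f.natDegree) (hD : D ≠ 0) : D.comp f ≠ 0 := by
  intro h0
  rw [comp_eq_zero_iff] at h0
  rcases h0 with h0 | ⟨_, h0⟩
  · exact hD h0
  · rw [h0, natDegree_C] at hf
    exact lt_irrefl _ hf

theorem card_filter_facs [Finite k] {g : k[X]} (hg : g ≠ 0) (p : k[X] → Prop) [DecidablePred p] :
    ((facs g).filter fun P => p P.1).card = ((primes g).filter p).card := by
  classical
  rw [Finset.card_filter, Finset.card_filter]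
  exact sum_primes hg (fun P => if p P then 1 else 0)

open Classical in
/-- there are more primes above -/
theorem below_le [Finite k] {f D : k[X]} (hf : 0 < f.natDegree) (hD : D ≠ 0) (m : ℕ) :
    ((primes D).filter fun P => m ∣ P.natDegree).card ≤
      ((primes (D.comp f)).filter fun R => m ∣ R.natDegree).card := by
  have hDf := comp_ne' hf hD
  have hex : ∀ P : k[X], P.Monic ∧ Irreducible P → ∃ R : k[X], R.Monic ∧ Irreducible R ∧
      R ∣ P.comp f := by
    intro P hP
    have hPf := comp_ne' hf hP.2.ne_zero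
    have hnu : ¬ IsUnit (P.comp f) := by
      intro h
      have h1 := natDegree_eq_zero_of_isUnit h
      rw [natDegree_comp] at h1
      have := hP.2.natDegree_pos
      rcases Nat.mul_eq_zero.1 h1 with h | h <;> omega
    obtain ⟨R, h1, h2, h3⟩ := Polynomial.exists_monic_irreducible_factor (P.comp f) hnu
    exact ⟨R, h1, h2, h3⟩
  choose! ρ hρ using hex
  refine Finset.card_le_card_of_injOn ρ ?_ ?_
  · intro P hP
    obtain ⟨hP1, hP2⟩ := Finset.mem_filter.1 hP
    obtain ⟨hPm, hPi, hPd⟩ := (mem_primes hD P).1 hP1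
    obtain ⟨h1, h2, h3⟩ := hρ P ⟨hPm, hPi⟩
    refine Finset.mem_coe.2 (Finset.mem_filter.2 ⟨(mem_primes hDf _).2 ⟨h1, h2, ?_⟩, ?_⟩)
    · obtain ⟨Z, hZ⟩ := hPd
      refine h3.trans ⟨Z.comp f, ?_⟩
      conv_lhs => rw [hZ]
      rw [mul_comp]
    · exact hP2.trans (TD.degree_dvd hPm hPi h2 h3)
  · intro P hP Q hQ h
    obtain ⟨hPm, hPi, _⟩ := (mem_primes hD P).1 (Finset.mem_filter.1 hP).1
    obtain ⟨hQm, hQi, _⟩ := (mem_primes hD Q).1 (Finset.mem_filter.1 hQ).1
    obtain ⟨_, h2, h3⟩ := hρ P ⟨hPm, hPi⟩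
    obtain ⟨_, _, h6⟩ := hρ Q ⟨hQm, hQi⟩
    exact TD.same_prime ⟨hPm, hPi⟩ ⟨hQm, hQi⟩ h2 h3 (by
      have h' : ρ P = ρ Q := h
      rw [h']
      exact h6)

end conds

section main

variable {k : Type} [Field k] [Finite k] {ℓ : ℕ} [hℓ : Fact ℓ.Prime]

theorem value_eq_zero (f D : k[X]) (z : PlanePt k) : value f D z = 0 ↔ z.2.1 ∣ branch f D z.1 := by
  have := finRF z.1
  have := finRF z.2
  have i1 : Module.Finite k (RF z.1) := Module.Finite.of_finite
  have i2 : Module.Finite (RF z.1) (RF z.2) := Module.Finite.of_finite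
  unfold value normRes normAt
  rw [Algebra.norm_eq_zero_iff]
  haveI : Module.Finite (RF z.1) (AdjoinRoot z.2.1) := i2
  haveI : Fact (Irreducible z.2.1) := ⟨z.2.2.2⟩
  rw [Algebra.norm_eq_zero_iff, AdjoinRoot.mk_eq_zero]

theorem finite_plane (n : ℕ) : {z : PlanePt k | z.degree ≤ n}.Finite := by
  have hfin : ∀ R : MI k, Finite (RF R) := finRF
  exact sigma_finite (ι := MI k) (κ := fun R => MI (RF R)) (d := fun R => R.1.natDegree)
    (e := fun R S => S.1.natDegree) (fun n => finite_deg_le (F := k) n) (fun R => MI.deg_pos R)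
    (fun R n => finite_deg_le n) (fun R S => MI.deg_pos S) n

theorem degree_pos (z : PlanePt k) : 0 < z.degree :=
  Nat.mul_pos (MI.deg_pos _) (MI.deg_pos _)

/-- the reduction of the product -/
theorem plane_mod {K : Type} [Field K] [NumberField K] {f D : k[X]} {ψ : MulChar k (𝓞 K)} {a : ℕ}
    (hψ : ψ ^ ℓ ^ a = 1) {R : Type} [Field R] [CharP R ℓ] (ρ : 𝓞 K →+* R) :
    PowerSeries.map ρ (planeProduct ψ f D) =
      PowerSeries.map (Int.castRingHom R) (openPlane f D) := by
  classical
  have h1 := red_mE (finite_plane (k := k)) ρ (fun z => ψ (value f D z))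
    (fun z => ¬ z.2.1 ∣ branch f D z.1) (fun z hz => by
      have hv : value f D z ≠ 0 := fun h => hz ((value_eq_zero f D z).1 h)
      show ρ (ψ (value f D z)) = 1
      apply Pool.Agent.TH639.SG.eq_one_of_pow (ℓ := ℓ) (m := a)
      rw [← map_pow, ← MulChar.pow_apply' ψ (pow_ne_zero _ hℓ.out.ne_zero), hψ,
        MulChar.one_apply (isUnit_iff_ne_zero.2 hv), map_one]) (fun z hz => by
      have hv : value f D z = 0 := (value_eq_zero f D z).2 (not_not.1 hz)
      show ρ (ψ (value f D z)) = 0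
      rw [hv, MulChar.map_zero, map_zero])
  have h2 : eulerProd (fun z : {z : PlanePt k // ¬ z.2.1 ∣ branch f D z.1} => z.1.degree)
      (fun z => (1 - PowerSeries.X ^ z.1.degree : PowerSeries ℤ)) = openPlane f D := by
    unfold openPlane
    exact eulerProd_subtype (fun z : PlanePt k => ¬ z.2.1 ∣ branch f D z.1) finite_plane
      (f := fun z => (1 - PowerSeries.X ^ z.degree : PowerSeries ℤ))
      (fun z _ => Pool.Agent.TH639.SE.one_sub_mod le_rfl)
  rw [h2] at h1
  exact h1

/-- **The multiplicities.** -/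
theorem mult_le (hq : ℓ ∣ Nat.card k - 1) {f D : k[X]} (hf : 0 < f.natDegree) (hD : D ≠ 0)
    (ht : DegreesPrimeTo ℓ f D) {e : ℕ} (hs : ExcessLE e f D) {K : Type} [Field K] [NumberField K]
    {ψ : MulChar k (𝓞 K)} {a : ℕ} (hψ : ψ ^ ℓ ^ a = 1) {Q : (𝓞 K)[X]}
    (hQ : planeProduct ψ f D = (Q : PowerSeries (𝓞 K))) {E V : Type} [Field E] [CharZero E]
    [IsAlgClosed E] [AddCommGroup V] [Module E V] [FiniteDimensional E V] (φ : 𝓞 K →+* E)
    (Φ : Module.End E V) (hΦ : IsDet φ Φ Q)
    (hdim : finrank E V + ∑ P ∈ primes D, P.natDegree =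
      ∑ R ∈ primes (D.comp f), R.natDegree) (α : E) :
    (LinearMap.charpoly Φ).rootMultiplicity α ≤ e := by
  classical
  have hDf := comp_ne' hf hD
  obtain ⟨H, S, hS, hHS, hH⟩ := quotient (ℓ := ℓ) (facs (D.comp f)) (facs D)
    (fun P => P.1.natDegree) (fun P => P.1.natDegree)
    (fun P hP => ht P.1 ((mem_primes hDf _).2 ⟨P.2.1, P.2.2, (mem_facs hDf P).1 hP⟩))
    (fun P _ => MI.deg_pos P) (fun P _ => MI.deg_pos P)
    (fun m _ => by
      rw [card_filter_facs hD (fun P => m ∣ P.natDegree),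
        card_filter_facs hDf (fun P => m ∣ P.natDegree)]
      exact below_le hf hD m)
    (e := e) (fun m hm => by
      rw [card_filter_facs hD (fun P => m ∣ P.natDegree),
        card_filter_facs hDf (fun P => m ∣ P.natDegree)]
      exact hs m hm)
  -- the product over the points as a power series
  have hne : ∏ P ∈ facs D, (1 - PowerSeries.X ^ P.1.natDegree : PowerSeries (ZMod ℓ)) ≠ 0 :=
    Finset.prod_ne_zero_iff.2 fun P _ => Pool.Agent.TH639.SE.one_sub_ne (MI.deg_pos P)
  have hne1 : (1 - PowerSeries.X : PowerSeries (ZMod ℓ)) ≠ 0 := by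
    have := Pool.Agent.TH639.SE.one_sub_ne (R := ZMod ℓ) (hn := one_pos)
    rwa [pow_one] at this
  have hHser : (H : PowerSeries (ZMod ℓ)) = red ℓ (openPlane f D) := by
    have h1 := open_red (ℓ := ℓ) hq hf hD
    rw [← Pool.Agent.X261.SE.prod_comp hD hf
      (fun R => (1 - PowerSeries.X ^ R.1.natDegree : PowerSeries (ZMod ℓ)))] at h1
    have h2 := congrArg (fun g : (ZMod ℓ)[X] => (g : PowerSeries (ZMod ℓ))) hH
    have h3 : ∀ A : Finset (MI k), ((∏ P ∈ A, (1 - X ^ P.1.natDegree) : (ZMod ℓ)[X]) :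
        PowerSeries (ZMod ℓ)) = ∏ P ∈ A, (1 - PowerSeries.X ^ P.1.natDegree) := by
      intro A
      rw [← Polynomial.coeToPowerSeries.ringHom_apply, map_prod]
      refine Finset.prod_congr rfl fun P _ => ?_
      rw [map_sub, map_one, map_pow, Polynomial.coeToPowerSeries.ringHom_apply, Polynomial.coe_X]
    simp only [Polynomial.coe_mul] at h2
    rw [h3, h3] at h2
    have h4 : red ℓ (openPlane f D) * (∏ P ∈ facs D, (1 - PowerSeries.X ^ P.1.natDegree)) *
        (1 - PowerSeries.X) = (H : PowerSeries (ZMod ℓ)) *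
        (∏ P ∈ facs D, (1 - PowerSeries.X ^ P.1.natDegree)) * (1 - PowerSeries.X) := by
      rw [h2]
      linear_combination h1
    exact (mul_right_cancel₀ hne (mul_right_cancel₀ hne1 h4)).symm
  have hQ0 : Q.coeff 0 = 1 := by
    have h1 : PowerSeries.constantCoeff (planeProduct ψ f D) = 1 :=
      Pool.Agent.H313.CC.one_of_pos (finite_plane (k := k)) degree_pos _
    rw [hQ, ← PowerSeries.coeff_zero_eq_constantCoeff_apply, Polynomial.coeff_coe] at h1
    exact h1
  have hmod : ∀ (R : Type) [Field R] [CharP R ℓ] (ρ : 𝓞 K →+* R),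
      Q.map ρ = H.map (ZMod.castHom (dvd_refl ℓ) R) := by
    intro R _ _ ρ
    apply Polynomial.coe_injective R
    rw [Polynomial.polynomial_map_coe, Polynomial.polynomial_map_coe, ← hQ, plane_mod hψ ρ, hHser]
    ext i
    rw [PowerSeries.coeff_map, PowerSeries.coeff_map, PowerSeries.coeff_map]
    exact (map_intCast (ZMod.castHom (dvd_refl ℓ) R) _).symm
  rw [← count_roots]
  refine count_mod φ hQ0 hΦ hS hHS ?_ hmod α
  have h1 := natDegree_quot (fun P _ => MI.deg_pos P) (fun P _ => MI.deg_pos P) hH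
  rw [sum_primes hD (fun P => P.natDegree), sum_primes hDf (fun P => P.natDegree)] at h1
  have h2 : Multiset.card (LinearMap.charpoly Φ).roots = finrank E V := by
    rw [← LinearMap.charpoly_natDegree Φ]
    exact splits_iff_card_roots.1 (IsAlgClosed.splits _)
  rw [h2]
  omega

end main

end Pool.Agent.X261.SS
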