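import Pool.Agent.X261.SS.Blk
import Pool.Agent.X261.TS.Ext

/-!
# Inert primes and cubic pencils
-/

set_option autoImplicit false
set_option linter.all false

open Polynomial
open scoped Classical

namespace Pool.Agent.X261.SS

open Pool.Agent.TH943.HJ (primes mem_primes sum_primes primes_of_irreducible)
open Pool.Agent.X261.TD (irr irr_finite ones degree_dvd same_prime sum_degree card_kind sum_ones)

section inert

variable {k : Type} [Field k]

theorem prime_of_factor {f D R : k[X]} (hf : 0 < f.natDegree) (hm : f.Monic) (hD : D ≠ 0)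
    (hin : ∀ P ∈ primes D, Irreducible (P.comp f)) (hR : R ∈ primes (D.comp f)) :
    ∃ P ∈ primes D, R = P.comp f := by
  obtain ⟨h1, h2, h3⟩ := (mem_primes (comp_ne' hf hD) R).1 hR
  -- some prime factor of `D`
  have key : ∀ (n : ℕ) (Z : k[X]), Z.natDegree = n → Z ≠ 0 → Z ∣ D → R ∣ Z.comp f →
      ∃ P ∈ primes D, R ∣ P.comp f := by
    intro n
    induction n using Nat.strong_induction_on with
    | _ n ih =>
      intro Z hn hZ0 hZD hRZ
      by_cases hu : IsUnit Z
      · obtain ⟨c, hc, rfl⟩ := Polynomial.isUnit_iff.1 hu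
        rw [C_comp] at hRZ
        exact absurd (isUnit_of_dvd_unit hRZ (isUnit_C.2 hc)) h2.not_isUnit
      · obtain ⟨P, hPm, hP, Y, hY⟩ := Polynomial.exists_monic_irreducible_factor Z hu
        rw [hY, mul_comp] at hRZ
        rcases h2.prime.dvd_or_dvd hRZ with h | h
        · exact ⟨P, (mem_primes hD P).2 ⟨hPm, hP, (Dvd.intro _ hY.symm).trans hZD⟩, h⟩
        · have hY0 : Y ≠ 0 := by
            rintro rfl
            rw [mul_zero] at hY
            exact hZ0 hY
          refine ih Y.natDegree ?_ Y rfl hY0 ((Dvd.intro_left _ hY.symm).trans hZD) h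
          rw [← hn, hY, natDegree_mul hP.ne_zero hY0]
          have := hP.natDegree_pos
          omega
  obtain ⟨P, hP, hRP⟩ := key _ D rfl hD dvd_rfl h3
  obtain ⟨hPm, _, _⟩ := (mem_primes hD P).1 hP
  exact ⟨P, hP, eq_of_monic_of_associated h1 (hPm.comp hm (by omega))
    (h2.associated_of_dvd (hin P hP) hRP)⟩

theorem primes_comp {f D : k[X]} (hf : 0 < f.natDegree) (hm : f.Monic) (hD : D ≠ 0)
    (hin : ∀ P ∈ primes D, Irreducible (P.comp f)) :
    primes (D.comp f) = (primes D).image fun P => P.comp f := by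
  ext R
  rw [Finset.mem_image]
  constructor
  · intro hR
    obtain ⟨P, hP, h⟩ := prime_of_factor hf hm hD hin hR
    exact ⟨P, hP, h.symm⟩
  · rintro ⟨P, hP, rfl⟩
    obtain ⟨hPm, _, Z, hZ⟩ := (mem_primes hD P).1 hP
    refine (mem_primes (comp_ne' hf hD) _).2 ⟨hPm.comp hm (by omega), hin P hP, Z.comp f, ?_⟩
    conv_lhs => rw [hZ]
    rw [mul_comp]

theorem card_filter_comp {f D : k[X]} (hf : 0 < f.natDegree) (hm : f.Monic) (hD : D ≠ 0)
    (hin : ∀ P ∈ primes D, Irreducible (P.comp f)) (m : ℕ) :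
    ((primes (D.comp f)).filter fun R => m ∣ R.natDegree).card ≤
      ((primes D).filter fun P => m ∣ P.natDegree * f.natDegree).card := by
  rw [primes_comp hf hm hD hin, Finset.filter_image]
  refine Finset.card_image_le.trans (le_of_eq ?_)
  congr 1
  refine Finset.filter_congr fun P _ => ?_
  rw [natDegree_comp]

/-- all the primes -/
theorem excess_all {f D : k[X]} (hf : 0 < f.natDegree) (hm : f.Monic) (hD : D ≠ 0)
    (hin : ∀ P ∈ primes D, Irreducible (P.comp f)) {e : ℕ} (he : (primes D).card ≤ e) :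
    ExcessLE e f D := fun m _ =>
  (card_filter_comp hf hm hD hin m).trans ((Finset.card_filter_le _ _).trans (he.trans
    (Nat.le_add_right _ _)))

/-- the levels, for prime degrees -/
theorem excess_level {f D : k[X]} (hf : f.natDegree.Prime) (hm : f.Monic) (hD : D ≠ 0)
    (hin : ∀ P ∈ primes D, Irreducible (P.comp f)) {e : ℕ}
    (he : ∀ v : ℕ, ((primes D).filter fun P => padicValNat f.natDegree P.natDegree = v).card ≤ e) :
    ExcessLE e f D := by
  intro m hm0
  haveI : Fact f.natDegree.Prime := ⟨hf⟩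
  refine (card_filter_comp hf.pos hm hD hin m).trans ?_
  have hsub : ((primes D).filter fun P => m ∣ P.natDegree * f.natDegree) ⊆
      ((primes D).filter fun P => padicValNat f.natDegree P.natDegree =
        padicValNat f.natDegree m - 1) ∪ (primes D).filter fun P => m ∣ P.natDegree := by
    intro P hP
    obtain ⟨hP1, hP2⟩ := Finset.mem_filter.1 hP
    rw [Finset.mem_union]
    by_cases h : m ∣ P.natDegree
    · exact Or.inr (Finset.mem_filter.2 ⟨hP1, h⟩)
    · left
      refine Finset.mem_filter.2 ⟨hP1, ?_⟩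
      have hP0 : P.natDegree ≠ 0 := ((mem_primes hD P).1 hP1).2.1.natDegree_pos.ne'
      -- compare the valuations
      have h1 : padicValNat f.natDegree m ≤ padicValNat f.natDegree P.natDegree + 1 := by
        have h2 := (padicValNat_dvd_iff_le (p := f.natDegree)
          (mul_ne_zero hP0 hf.ne_zero)).1 ((pow_padicValNat_dvd (p := f.natDegree) (n := m)).trans hP2)
        rwa [padicValNat.mul hP0 hf.ne_zero, padicValNat_self] at h2
      have h2 : ¬ padicValNat f.natDegree m ≤ padicValNat f.natDegree P.natDegree := by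
        intro h3
        apply h
        obtain ⟨c, hc, hmc⟩ := Nat.exists_eq_pow_mul_and_not_dvd hm0.ne' f.natDegree hf.ne_one
        obtain ⟨a, ha⟩ : ∃ a, a = padicValNat f.natDegree m := ⟨_, rfl⟩
        obtain ⟨b, hb⟩ := pow_padicValNat_dvd (p := f.natDegree) (n := m)
        rw [← ha] at hb h3
        have hbn : ¬ f.natDegree ∣ b := by
          rintro ⟨y, rfl⟩
          have h5 : f.natDegree ^ (a + 1) ∣ m := ⟨y, by
            conv_lhs => rw [hb]
            ring⟩
          have h6 := (padicValNat_dvd_iff_le (p := f.natDegree) hm0.ne').1 h5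
          omega
        rw [hb] at hP2 ⊢
        have hcop : (f.natDegree ^ a).Coprime b :=
          Nat.Coprime.pow_left a ((Nat.Prime.coprime_iff_not_dvd hf).2 hbn)
        refine Nat.Coprime.mul_dvd_of_dvd_of_dvd hcop ?_ ?_
        · exact (padicValNat_dvd_iff_le hP0).2 h3
        · exact ((Nat.Prime.coprime_iff_not_dvd hf).2 hbn).symm.dvd_of_dvd_mul_right
            ((Dvd.intro_left _ rfl).trans hP2)
      omega
  refine (Finset.card_le_card hsub).trans ((Finset.card_union_le _ _).trans ?_)
  exact Nat.add_le_add_right (he _) _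

theorem degrees_inert {ℓ : ℕ} (hℓ : ℓ.Prime) {f D : k[X]} (hf : 0 < f.natDegree) (hm : f.Monic)
    (hD : D ≠ 0) (hin : ∀ P ∈ primes D, Irreducible (P.comp f)) (hn : ¬ ℓ ∣ f.natDegree)
    (hd : ∀ P ∈ primes D, ¬ ℓ ∣ P.natDegree) : DegreesPrimeTo ℓ f D := by
  intro R hR
  obtain ⟨P, hP, rfl⟩ := prime_of_factor hf hm hD hin hR
  rw [natDegree_comp, hℓ.dvd_mul]
  rintro (h | h)
  · exact hd P hP h
  · exact hn h

end inert

section cubic

variable {k : Type} [Field k]

theorem mul_of_mem {f P R : k[X]} (hf : 0 < f.natDegree) (hPm : P.Monic) (hP : Irreducible P)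
    (hR : R ∈ primes (P.comp f)) : ∃ c : ℕ, 0 < c ∧ R.natDegree = P.natDegree * c := by
  obtain ⟨_, h2, h3⟩ := (mem_primes (comp_ne' hf hP.ne_zero) R).1 hR
  obtain ⟨c, hc⟩ := degree_dvd hPm hP h2 h3
  refine ⟨c, ?_, hc⟩
  rcases Nat.eq_zero_or_pos c with h | h
  · have := h2.natDegree_pos
    rw [hc, h, mul_zero] at this
    exact absurd this (lt_irrefl _)
  · exact h

theorem mul_le_three {f P R : k[X]} (hf : f.natDegree = 3) (hPm : P.Monic) (hP : Irreducible P)
    (hR : R ∈ primes (P.comp f)) : ∃ c : ℕ, 0 < c ∧ c ≤ 3 ∧ R.natDegree = P.natDegree * c := by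
  obtain ⟨c, hc, h⟩ := mul_of_mem (by omega) hPm hP hR
  refine ⟨c, hc, ?_, h⟩
  have h1 := sum_degree (f := f) hf hP.ne_zero
  have h2 : R.natDegree ≤ ∑ R ∈ primes (P.comp f), R.natDegree :=
    Finset.single_le_sum (f := fun R : k[X] => R.natDegree) (fun _ _ => Nat.zero_le _) hR
  have h3 := hP.natDegree_pos
  rw [h] at h2
  have h4 : P.natDegree * c ≤ P.natDegree * 3 := by
    rw [mul_comm P.natDegree 3]
    exact h2.trans h1
  exact Nat.le_of_mul_le_mul_left h4 h3

theorem primes_self {P : k[X]} (hPm : P.Monic) (hP : Irreducible P) : primes P = {P} := by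
  ext R
  rw [mem_primes hP.ne_zero, Finset.mem_singleton]
  constructor
  · rintro ⟨h1, h2, h3⟩
    exact eq_of_monic_of_associated h1 hPm (h2.associated_of_dvd hP h3)
  · rintro rfl
    exact ⟨hPm, hP, dvd_rfl⟩

theorem excess_cubic {f P : k[X]} (hf : f.natDegree = 3) (hPm : P.Monic) (hP : Irreducible P)
    (h2 : (primes (P.comp f)).card ≤ 2) : ExcessLE 1 f P := by
  intro m hm
  by_cases h : m ∣ P.natDegree
  · have e : ((primes P).filter fun Q => m ∣ Q.natDegree) = {P} := by
      rw [primes_self hPm hP]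
      ext Q
      rw [Finset.mem_filter, Finset.mem_singleton]
      exact ⟨fun h => h.1, fun h' => ⟨h', h' ▸ h⟩⟩
    rw [e, Finset.card_singleton]
    exact (Finset.card_filter_le _ _).trans h2
  · refine le_trans ?_ (Nat.le_add_right 1 _)
    rw [Finset.card_le_one]
    intro R hR S hS
    by_contra hne
    obtain ⟨hR1, hR2⟩ := Finset.mem_filter.1 hR
    obtain ⟨hS1, hS2⟩ := Finset.mem_filter.1 hS
    have hge : ∀ T ∈ primes (P.comp f), m ∣ T.natDegree → 2 * P.natDegree ≤ T.natDegree := by
      intro T hT hmT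
      obtain ⟨c, hc, hTc⟩ := mul_of_mem (by omega) hPm hP hT
      have hc1 : c ≠ 1 := by
        rintro rfl
        rw [mul_one] at hTc
        exact h (hTc ▸ hmT)
      rw [hTc, mul_comm]
      exact Nat.mul_le_mul_left _ (by omega)
    have h3 := hge R hR1 hR2
    have h4 := hge S hS1 hS2
    have h5 := sum_degree (f := f) hf hP.ne_zero
    have h6 : R.natDegree + S.natDegree ≤ ∑ R ∈ primes (P.comp f), R.natDegree := by
      rw [← Finset.sum_pair hne]
      refine Finset.sum_le_sum_of_subset_of_nonneg ?_ fun _ _ _ => Nat.zero_le _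
      intro T hT
      rcases Finset.mem_insert.1 hT with rfl | hT
      · exact hR1
      · rw [Finset.mem_singleton.1 hT]
        exact hS1
    have := hP.natDegree_pos
    omega

theorem degrees_cubic {ℓ : ℕ} (hℓ : ℓ.Prime) {f P : k[X]} (hf : f.natDegree = 3)
    (hPm : P.Monic) (hP : Irreducible P) (h6 : ¬ ℓ ∣ 6 * P.natDegree) : DegreesPrimeTo ℓ f P := by
  intro R hR h
  obtain ⟨c, hc, hc3, hRc⟩ := mul_le_three hf hPm hP hR
  apply h6
  rw [hRc, hℓ.dvd_mul] at h
  rw [hℓ.dvd_mul]
  rcases h with h | h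
  · exact Or.inr h
  · left
    refine h.trans ?_
    interval_cases c <;> decide

variable [Finite k]

/-- the primes which split -/
theorem split_count {f : k[X]} (h2 : (2 : k) ≠ 0) (h3 : (3 : k) ≠ 0) (hm : f.Monic)
    (hd : f.natDegree = 3) (hg : f.coeff 2 ^ 2 ≠ 3 * f.coeff 1) {N : ℕ} (hN : 0 < N) :
    6 * (N * {P ∈ irr k N | 2 < (primes (P.comp f)).card}.ncard) ≤
      Nat.card k ^ N + 6 * Nat.card k ^ (N / 2) := by
  have h5 := (Pool.Agent.X261.TS.inert_bounds h2 h3 hm hd hg hN).2
  have hsum : ∑ P ∈ (irr_finite (k := k) N).toFinset,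
      (1 + 2 * (if 2 < (primes (P.comp f)).card then 1 else 0)) ≤
      ∑ P ∈ (irr_finite (k := k) N).toFinset,
        ((ones f P).card + (if Irreducible (P.comp f) then 1 else 0)) := by
    refine Finset.sum_le_sum fun P hP => ?_
    rw [Set.Finite.mem_toFinset] at hP
    exact card_kind hd hP.1 hP.2.1
  have h6 := sum_ones (f := f) hd N
  rw [Finset.sum_add_distrib, Finset.sum_add_distrib, Finset.sum_const, smul_eq_mul, mul_one,
    ← Finset.mul_sum, ← Set.ncard_eq_toFinset_card _ (irr_finite N)] at hsum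
  have e1 : ∑ P ∈ (irr_finite (k := k) N).toFinset,
      (if 2 < (primes (P.comp f)).card then 1 else 0) =
      {P ∈ irr k N | 2 < (primes (P.comp f)).card}.ncard := by
    rw [← Finset.card_filter, ← Set.ncard_coe_finset]
    congr 1
    ext P
    simp
  have e2 : ∑ P ∈ (irr_finite (k := k) N).toFinset,
      (if Irreducible (P.comp f) then 1 else 0) =
      {P ∈ irr k N | Irreducible (P.comp f)}.ncard := by
    rw [← Finset.card_filter, ← Set.ncard_coe_finset]
    congr 1
    ext P
    simp
  rw [e1, e2] at hsum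
  generalize {P ∈ irr k N | 2 < (primes (P.comp f)).card}.ncard = b at *
  generalize {P ∈ irr k N | Irreducible (P.comp f)}.ncard = i at *
  have h7 : 2 * b ≤ i := by omega
  calc 6 * (N * b) = 3 * (N * (2 * b)) := by ring
    _ ≤ 3 * (N * i) := Nat.mul_le_mul_left _ (Nat.mul_le_mul_left _ h7)
    _ ≤ _ := h5

end cubic

end Pool.Agent.X261.SS
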