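import Pool.Agent.X261.SE.One
import Pool.Agent.H313.GE.Kum

/-!
# Kummer sheaves on the plane modulo `ℓ`
-/

set_option autoImplicit false
set_option linter.all false

open PowerSeries

namespace Pool.Agent.X261.SS

open Pool.Agent.W313.Hyp Pool.Agent.W343.BSD
open Pool.Agent.X261.SE
open Pool.Agent.TH943.HJ (RF finRF fd1 fd2 finrank_RF finrank_two prod_local exists_over over_unique
  comp_ne fib)
open Pool.Agent.TH943.LP (map_ne prod_facs_map)
open Pool.Agent.TH639.SE (pow_one_mod one_sub_mod red one_sub_ne eulerProd_pow zeta_line Psi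
  Psi_mod eulerProd_Psi IsMu isMu_facs primes mem_primes sum_primes)

section defs

variable {k : Type} [Field k]

/-- The closed points of the plane over `k`: a closed point `R` of the line with the coordinate `x`, that
is a monic irreducible polynomial over `k`, and a closed point `S` of the line with the coordinate `t`
over the residue field `RF R` of `R`. -/
abbrev PlanePt (k : Type) [Field k] : Type := Σ R : MI k, MI (RF R)

/-- The degree of a closed point of the line. -/
noncomputable def lineDegree {F : Type} [Field F] (S : MI F) : ℕ := S.1.natDegree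

/-- The degree of a closed point of the plane. -/
noncomputable def PlanePt.degree (z : PlanePt k) : ℕ := lineDegree z.1 * lineDegree z.2

/-- The polynomial `D(t) (c - t)`. -/
noncomputable def timesLinear {F : Type} [Field F] (D : Polynomial F) (c : F) : Polynomial F :=
  D * (Polynomial.C c - Polynomial.X)

/-- The polynomial `D(t) (f(x) - t)` in `t` over the residue field of the point `R` of the `x`-line. -/
noncomputable def branch (f D : Polynomial k) (R : MI k) : Polynomial (RF R) :=
  timesLinear (D.map (algebraMap k (RF R))) (AdjoinRoot.mk R.1 f)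

/-- The norm to `F` of the value of a polynomial at a closed point of the line over `F`. -/
noncomputable def normAt {F : Type} [Field F] (S : MI F) (g : Polynomial F) : F :=
  Algebra.norm F (AdjoinRoot.mk S.1 g)

/-- The norm to `F` of an element of the residue field of a closed point of the line over `F`. -/
noncomputable def normRes {F : Type} [Field F] (S : MI F) (c : RF S) : F :=
  Algebra.norm F c

/-- The norm to `k` of the value of `D(t) (f(x) - t)` at a closed point of the plane. -/
noncomputable def value (f D : Polynomial k) (z : PlanePt k) : k :=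
  normRes z.1 (normAt z.2 (branch f D z.1))

/-- The product over the closed points `z` of the plane of the factors `1 - ψ(N z) T ^ (deg z)`, where
`N z` is the norm of the value of `D(t) (f(x) - t)` at `z` and `ψ(0) = 0`. It is the inverse of the
`L`-function of the Kummer sheaf of `ψ` for `D(t) (f(x) - t)`. -/
noncomputable def planeProduct {A : Type} [CommRing A] (ψ : MulChar k A) (f D : Polynomial k) :
    PowerSeries A :=
  eulerProd (fun z : PlanePt k => z.degree)
    (fun z => 1 - PowerSeries.C (ψ (value f D z)) * PowerSeries.X ^ z.degree)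

end defs

section local_

variable {F : Type} [Field F] [Finite F]

open Classical in
/-- the product over the closed points of the line where `g` is not zero -/
noncomputable def opL (g : Polynomial F) (d : ℕ) : PowerSeries ℤ :=
  eulerProd (fun S : MI F => d * S.1.natDegree)
    (fun S => if ¬ S.1 ∣ g then 1 - X ^ (d * S.1.natDegree) else 1)

theorem opL_fac (g : Polynomial F) (d : ℕ) (S : MI F) : (X : PowerSeries ℤ) ^ (d * S.1.natDegree) ∣
    (open Classical in if ¬ S.1 ∣ g then 1 - X ^ (d * S.1.natDegree) else 1) - 1 := by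
  by_cases h : S.1 ∣ g
  · rw [if_neg (not_not.2 h), sub_self]
    exact dvd_zero _
  · rw [if_pos h]
    exact one_sub_mod le_rfl

theorem opL_mod_one (g : Polynomial F) {d : ℕ} (hd : 0 < d) :
    (X : PowerSeries ℤ) ^ d ∣ opL g d - 1 :=
  euler_one_mod (finite_d hd) (fun S => opL_fac g d S) d fun S =>
    (pow_dvd_pow _ (Nat.le_mul_of_pos_right _ (MI.deg_pos S))).trans (opL_fac g d S)

/-- the local identity -/
theorem opL_red {ℓ : ℕ} [hp : Fact ℓ.Prime] (hF : ℓ ∣ Nat.card F - 1)
    {g : Polynomial F} (h0 : g ≠ 0) {d : ℕ} (hd : 0 < d) :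
    red ℓ (opL g d) * ∏ P ∈ facs g, (1 - X ^ (d * P.1.natDegree)) = 1 - X ^ d := by
  classical
  have h1 : ∀ P : MI F, (X : PowerSeries (ZMod ℓ)) ^ (d * P.1.natDegree) ∣
      (1 - X ^ (d * P.1.natDegree)) - 1 := fun P => one_sub_mod le_rfl
  set G : MI F → PowerSeries ℤ := fun S => if ¬ S.1 ∣ g then 1 - X ^ (d * S.1.natDegree) else 1
    with hG
  have h2 : ∀ P : MI F, (X : PowerSeries (ZMod ℓ)) ^ (d * P.1.natDegree) ∣ red ℓ (G P) - 1 := by
    intro P
    have h3 := map_dvd (red ℓ) (opL_fac g d P)
    rw [map_sub, map_one, map_pow, PowerSeries.map_X] at h3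
    exact h3
  have key := fin_factor' (finite_d hd)
    (F := fun P : MI F => (1 - X ^ (d * P.1.natDegree) : PowerSeries (ZMod ℓ)))
    h1 h2 (facs g) (fun P hP => by
      have h5 : ¬ P.1 ∣ g := fun h => hP ((mem_facs h0 P).2 h)
      show _ = red ℓ (G P)
      rw [hG]
      show _ = red ℓ (if ¬ P.1 ∣ g then 1 - X ^ (d * P.1.natDegree) else 1)
      rw [if_pos h5, map_sub, map_one, map_pow, PowerSeries.map_X])
  have h4 : ∏ P ∈ facs g, red ℓ (G P) = 1 :=
    Finset.prod_eq_one fun P hP => by
      have h5 : P.1 ∣ g := (mem_facs h0 P).1 hP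
      show red ℓ (if ¬ P.1 ∣ g then 1 - X ^ (d * P.1.natDegree) else 1) = 1
      rw [if_neg (not_not.2 h5), map_one]
  rw [h4, mul_one, zeta_line (card_cast hF) hd] at key
  have h5 : red ℓ (opL g d) = eulerProd (fun P : MI F => d * P.1.natDegree)
      (fun P => red ℓ (G P)) := by
    unfold opL
    exact map_eulerProd (finite_d hd) _
  rw [h5, ← key]

end local_

section global_

variable {k : Type} [Field k] [Finite k] {ℓ : ℕ} [hp : Fact ℓ.Prime]

open Classical in
/-- The product over the closed points of the plane where `D(t) (f(x) - t)` is not zero. -/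
noncomputable def openPlane (f D : Polynomial k) : PowerSeries ℤ :=
  eulerProd (fun z : PlanePt k => z.degree)
    (fun z => if ¬ z.2.1 ∣ branch f D z.1 then 1 - X ^ z.degree else 1)

theorem openPlane_eq (f D : Polynomial k) :
    openPlane f D = eulerProd (fun R : MI k => R.1.natDegree)
      (fun R => haveI := finRF R; opL (branch f D R) R.1.natDegree) := by
  classical
  have hfin : ∀ R : MI k, Finite (RF R) := finRF
  unfold openPlane PlanePt.degree lineDegree
  rw [eulerProd_sigma (ι := MI k) (κ := fun R => MI (RF R))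
    (d := fun R => R.1.natDegree) (e := fun R S => S.1.natDegree)
    (fun n => finite_deg_le (F := k) n) (fun R => MI.deg_pos R) (fun R n => finite_deg_le n)
    (fun R S => MI.deg_pos S) _ (fun p => by
      have := finRF p.1
      exact opL_fac (branch f D p.1) p.1.1.natDegree p.2)]
  rfl

theorem branch_eq (f D : Polynomial k) (R : MI k) : branch f D R = gR 1 f D R := by
  unfold branch timesLinear gR cf
  simp only [pow_one, Polynomial.comp_X]

/-- **the identity modulo `ℓ`** -/
theorem open_red (hq : ℓ ∣ Nat.card k - 1) {f D : Polynomial k} (hf : 0 < f.natDegree)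
    (hD : D ≠ 0) :
    red ℓ (openPlane f D) * ((∏ P ∈ facs D, (1 - X ^ P.1.natDegree)) * (1 - X)) =
      (1 - X) * ∏ P ∈ facs D, ∏ R ∈ facs (P.1.comp f), (1 - X ^ R.1.natDegree) := by
  classical
  have hfin : ∀ R : MI k, Finite (RF R) := finRF
  have hfd := fun n => finite_deg_le (F := k) n
  have hDf0 : D.comp f ≠ 0 := by
    intro h0
    rw [Polynomial.comp_eq_zero_iff] at h0
    rcases h0 with h0 | ⟨_, h0⟩
    · exact hD h0
    · rw [h0, Polynomial.natDegree_C] at hf
      exact lt_irrefl _ hf
  have hg : D.comp (Polynomial.X ^ 1) = D := by rw [pow_one, Polynomial.comp_X]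
  set Z : MI k → PowerSeries (ZMod ℓ) := fun R => 1 - X ^ R.1.natDegree with hZ
  set W : MI k → PowerSeries (ZMod ℓ) :=
    fun R => red ℓ (opL (branch f D R) R.1.natDegree) with hW
  set A : MI k → PowerSeries (ZMod ℓ) := fun R => Psi ℓ D R.1.natDegree with hA
  have hZ1 : ∀ R, (X : PowerSeries (ZMod ℓ)) ^ R.1.natDegree ∣ Z R - 1 := fun R =>
    one_sub_mod le_rfl
  have hA1 : ∀ R, (X : PowerSeries (ZMod ℓ)) ^ R.1.natDegree ∣ A R - 1 := fun R =>
    Psi_mod D (MI.deg_pos R)
  have hW1 : ∀ R, (X : PowerSeries (ZMod ℓ)) ^ R.1.natDegree ∣ W R - 1 := by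
    intro R
    have h3 := map_dvd (red ℓ) (opL_mod_one (branch f D R) (MI.deg_pos R))
    rwa [map_sub, map_one, map_pow, PowerSeries.map_X] at h3
  have hZne : ∀ R, Z R ≠ 0 := fun R => one_sub_ne (MI.deg_pos R)
  have hgR : ∀ R, branch f D R ≠ 0 := fun R => by
    rw [branch_eq]
    exact mul_ne_zero (by rw [hg]; exact map_ne hD R) (cf_ne one_pos f R)
  -- local computations
  have hloc : ∀ R, W R * ∏ P ∈ facs (branch f D R), (1 - X ^ (R.1.natDegree * P.1.natDegree)) =
      Z R := fun R => opL_red (card_RF_dvd hq R) (hgR R) (MI.deg_pos R)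
  have hAR : ∀ R, ∏ P ∈ facs (D.map (algebraMap k (RF R))),
      (1 - X ^ (R.1.natDegree * P.1.natDegree) : PowerSeries (ZMod ℓ)) = A R := fun R =>
    prod_facs_map hD R (fun n => (1 - X ^ n : PowerSeries (ZMod ℓ)))
  have hcf : ∀ R : MI k, ∏ S ∈ facs (cf 1 f R),
      (1 - X ^ (R.1.natDegree * S.1.natDegree) : PowerSeries (ZMod ℓ)) = Z R := by
    intro R
    have h1 := prod_cf hq 0 f R R.1.natDegree
    rw [pow_zero, pow_one, ite_self] at h1
    exact h1
  have hU : ∀ R, W R * A R * Z R =
      if R ∈ facs (D.comp f) then Z R * Z R else Z R := by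
    intro R
    have h1 := hloc R
    have hgR1 : gR 1 f D R ≠ 0 := by
      rw [← branch_eq]
      exact hgR R
    rw [branch_eq] at h1
    by_cases hR : R ∈ facs (D.comp f)
    · rw [if_pos hR]
      have hRd := (mem_facs hDf0 R).1 hR
      have h2 : facs (gR 1 f D R) = facs (D.map (algebraMap k (RF R))) := by
        ext S
        rw [mem_facs hgR1, mem_facs (map_ne hD R)]
        unfold gR
        rw [S.2.2.prime.dvd_mul, hg]
        have h5 := cf_dvd 1 hRd
        rw [hg] at h5
        exact ⟨fun h => h.elim id fun h => h.trans h5, Or.inl⟩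
      rw [h2, hAR] at h1
      rw [h1]
    · rw [if_neg hR]
      have hRd : ¬ R.1 ∣ D.comp f := fun h => hR ((mem_facs hDf0 R).2 h)
      have h2 : ∏ P ∈ facs (gR 1 f D R),
          (1 - X ^ (R.1.natDegree * P.1.natDegree) : PowerSeries (ZMod ℓ)) = A R * Z R := by
        rw [← hAR R, ← hcf R]
        have h5 := cf_coprime 1 hRd
        have h6 := facs_mul_of_coprime (by rw [hg]; exact map_ne hD R) (cf_ne one_pos f R) h5
          (fun S => (1 - X ^ (R.1.natDegree * S.1.natDegree) : PowerSeries (ZMod ℓ)))
        unfold gR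
        rw [h6, hg]
      rw [h2] at h1
      linear_combination h1
  -- the global identity
  have key := fin_factor' (F := fun R => W R * A R * Z R)
    (W := fun R => Z R) hfd
    (fun R => one_mod_mul (one_mod_mul (hW1 R) (hA1 R)) (hZ1 R)) hZ1 (facs (D.comp f))
    (fun R hR => by rw [hU R, if_neg hR])
  have hEZ : eulerProd (fun R : MI k => R.1.natDegree) Z = 1 - X := by
    have h1 := zeta_line (F := k) (card_cast hq) one_pos
    simp only [one_mul, pow_one] at h1
    exact h1
  have hEA : eulerProd (fun R : MI k => R.1.natDegree) A = ∏ P ∈ facs D, (1 - X ^ P.1.natDegree) :=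
    eulerProd_Psi (card_cast hq) D
  have hEW : eulerProd (fun R : MI k => R.1.natDegree) W = red ℓ (openPlane f D) := by
    rw [openPlane_eq, map_eulerProd hfd]
  rw [eulerProd_mul hfd (fun R => one_mod_mul (hW1 R) (hA1 R)) hZ1,
    eulerProd_mul hfd hW1 hA1, hEZ, hEA, hEW] at key
  have hBF : ∏ R ∈ facs (D.comp f), (W R * A R * Z R) =
      (∏ R ∈ facs (D.comp f), Z R) * (∏ R ∈ facs (D.comp f), Z R) := by
    rw [← Finset.prod_mul_distrib]
    refine Finset.prod_congr rfl fun R hR => ?_
    rw [hU R, if_pos hR]
  rw [hBF] at key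
  have hBne : ∏ R ∈ facs (D.comp f), Z R ≠ 0 :=
    Finset.prod_ne_zero_iff.2 fun R _ => hZne R
  have key2 : red ℓ (openPlane f D) * (∏ P ∈ facs D, (1 - X ^ P.1.natDegree)) *
      (1 - X) * ∏ R ∈ facs (D.comp f), Z R =
      (1 - X) * (∏ R ∈ facs (D.comp f), Z R) * ∏ R ∈ facs (D.comp f), Z R := by
    linear_combination key
  have h9 := mul_right_cancel₀ hBne key2
  rw [← mul_assoc, h9, prod_comp hD hf]

end global_

end Pool.Agent.X261.SS
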